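import Pool.Agent.N522.FL.Defs

/-!
# MP_a06248_ag: termination of flips for products
-/

open Pool.Agent.N522.FL

/-- All sequences of flips starting from `X × Y` are finite if and only if this holds for `X` and
for `Y`; hence it holds for all finite products of varieties for which it is known. -/
theorem Pool.Agent.Results.MP_a06248_ag.Products.result :
    ∀ T : Theory, Facts T →
      (∀ X Y : T.Var, Term (T.prod X Y) ↔ Term X ∧ Term Y) ∧
      (∀ X : T.Var, Gen T T.Known X → Term X) :=
  fun _ F => ⟨term_prod F, term_gen F⟩
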